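import Mathlib
import Pool.Agent.Helper52.Hemi.Goals2
import Pool.Agent.Helper80.Hemi.H1

/-!
Packet H5 of MP_7aba51_co: the formula for `T(X)` if `T(X) > 0` (characteristic 3).
-/

set_option autoImplicit false
set_option linter.unusedSectionVars false

open Classical

namespace Pool.Agent.Helper88.Hemi

open Pool.Agent.Helper52.Hemi

variable {k F K : Type} [Field k] [Fintype k] [Field F] [Fintype F] [Field K] [Fintype K]
  [Algebra k F] [Algebra F K] [Algebra k K] [IsScalarTower k F K]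

theorem exists_d (c : Ctx k F K) :
    ∃ d : k, algebraMap k F d = c.δ ^ 2 ∧ ¬ IsSquare d := by
  obtain ⟨d, hd⟩ := c.exists_k (x := c.δ ^ 2) (by rw [map_pow, c.cj_δ]; ring)
  refine ⟨d, hd, ?_⟩
  rintro ⟨z, rfl⟩
  rw [map_mul] at hd
  have h1 : (c.δ - algebraMap k F z) * (c.δ + algebraMap k F z) = 0 := by
    linear_combination -hd
  have key : ∀ w : k, c.δ ≠ algebraMap k F w := by
    intro w hw
    have h2 := c.cj_δ
    rw [hw, cj_algebraMap, ← hw] at h2
    have h3 : 2 * c.δ = 0 := by linear_combination h2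
    exact c.hδ0 ((mul_eq_zero.1 h3).resolve_left c.two_ne_zero_F)
  rcases mul_eq_zero.1 h1 with h2 | h2
  · exact key z (by linear_combination h2)
  · exact key (-z) (by rw [map_neg]; linear_combination h2)

theorem vec_shift (c : Ctx k F K) (σ : k) (X0 x1 x2 : F) :
    c.vec X0 x1 x2 = (c.shift σ).vec (X0 + algebraMap k F σ * x1 + algebraMap k F σ ^ 2 * x2)
      (x1 - algebraMap k F σ * x2) x2 := by
  rw [Ctx.vec, Ctx.vec, c.shift_θ]
  simp only [map_add, map_sub, map_mul, map_pow, ← IsScalarTower.algebraMap_apply]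
  linear_combination (algebraMap F K x2 * (algebraMap k K σ * c.θ - algebraMap k K σ ^ 2)) *
    c.three_K

theorem vec_smul (c : Ctx k F K) (x2 w C : F) :
    c.vec (x2 * w) (x2 * C) x2 = algebraMap F K x2 * c.vec w C 1 := by
  rw [Ctx.vec, Ctx.vec]
  simp only [map_mul, map_one]
  ring

theorem norm_vec (c : Ctx k F K) (w C : F) : Algebra.norm F (c.vec w C 1) =
    (w + 1) ^ 3 - (w + 1) ^ 2 - (w + 1) * C ^ 2 + (w + 1) + algebraMap k F c.a * C ^ 3 -
      algebraMap k F c.a * C + algebraMap k F c.a ^ 2 := by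
  apply (algebraMap F K).injective
  rw [c.norm_formula, c.fr4_vec, c.fr2_vec, Ctx.vec]
  simp only [map_add, map_sub, map_mul, map_pow, map_one, ← IsScalarTower.algebraMap_apply]
  have h1 := c.θ3
  have h2 := c.three_K
  generalize algebraMap F K w = w
  generalize algebraMap F K C = C
  generalize algebraMap k K c.a = a at *
  generalize c.θ = t at *
  linear_combination (5 * C + 3 * C * t ^ 2 + 6 * C * w + 3 * C ^ 2 * t + C ^ 3 + a + 2 * t +
    3 * t * w + t ^ 3) * h1 +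
    (1 + 2 * C * a + C * a * t ^ 2 + 2 * C * a * w + 3 * C * t + 4 * C * t * w + C * t * w ^ 2 +
    C ^ 2 * a * t + C ^ 2 * t ^ 2 + C ^ 2 * t ^ 2 * w + a * t + a * t * w + 2 * t ^ 2 +
    3 * t ^ 2 * w + t ^ 2 * w ^ 2 + 2 * w + w ^ 2) * h2

theorem mul_tau (c : Ctx k F K) {x2 C E : F} (hx2 : cj k F x2 = -x2) (hC : cj k F C = -C)
    (hE : cj k F E = -E) :
    c.vec (x2 * (-C ^ 2 - E)) (x2 * C) x2 * tau k K (c.vec (x2 * (-C ^ 2 - E)) (x2 * C) x2) =
      algebraMap F K (- x2 ^ 2 * ((1 - C ^ 2) ^ 2 - E ^ 2)) +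
      algebraMap F K (- x2 ^ 2 * (algebraMap k F c.a - C * E)) * c.θ := by
  rw [c.tau_vec, Ctx.vec, Ctx.vec]
  simp only [map_add, map_sub, map_mul, map_pow, map_one, map_neg, hx2, hC, hE,
    ← IsScalarTower.algebraMap_apply]
  have h1 := c.θ3
  have h2 := c.three_K
  generalize algebraMap F K x2 = x
  generalize algebraMap F K C = C
  generalize algebraMap F K E = E
  generalize algebraMap k K c.a = a at *
  generalize c.θ = t at *
  linear_combination (-(t * x ^ 2)) * h1 +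
    (-(C * E * t * x ^ 2) + C ^ 2 * t ^ 2 * x ^ 2 + -(t ^ 2 * x ^ 2)) * h2

theorem beta_eq (c : Ctx k F K) {x2 C E : F} (hx2 : cj k F x2 = -x2) (hC : cj k F C = -C)
    (hE : cj k F E = -E) (β : k)
    (h : fr k K (c.vec (x2 * (-C ^ 2 - E)) (x2 * C) x2 *
      tau k K (c.vec (x2 * (-C ^ 2 - E)) (x2 * C) x2)) =
      c.vec (x2 * (-C ^ 2 - E)) (x2 * C) x2 *
      tau k K (c.vec (x2 * (-C ^ 2 - E)) (x2 * C) x2) + algebraMap k K β) :
    algebraMap k F β = - x2 ^ 2 * (algebraMap k F c.a - C * E) := by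
  rw [mul_tau c hx2 hC hE, map_add (fr k K), map_mul (fr k K), fr_F, fr_F, c.fr_θ] at h
  have h1 : cj k F (- x2 ^ 2 * ((1 - C ^ 2) ^ 2 - E ^ 2)) =
      - x2 ^ 2 * ((1 - C ^ 2) ^ 2 - E ^ 2) := by
    simp only [map_add, map_sub, map_mul, map_pow, map_one, map_neg, hx2, hC, hE]
    ring
  have h2 : cj k F (- x2 ^ 2 * (algebraMap k F c.a - C * E)) =
      - x2 ^ 2 * (algebraMap k F c.a - C * E) := by
    simp only [map_add, map_sub, map_mul, map_pow, map_one, map_neg, hx2, hC, hE,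
      cj_algebraMap]
    ring
  rw [h1, h2] at h
  apply (algebraMap F K).injective
  rw [← IsScalarTower.algebraMap_apply]
  linear_combination -h

theorem point_iff (c : Ctx k F K) {x2 C E b : F} (hx2 : cj k F x2 = -x2) (hx0 : x2 ≠ 0)
    (hC : cj k F C = -C) (hE : cj k F E = -E) (hb : cj k F b = -b) (hb0 : b ≠ 0) (σ : k) :
    (hh k F K (c.vec (x2 * (-C ^ 2 - E)) (x2 * C) x2) ((c.shift σ).sp b) +
      cj k F (hh k F K (c.vec (x2 * (-C ^ 2 - E)) (x2 * C) x2) ((c.shift σ).sp b)) = 0) ↔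
    (algebraMap k F σ ^ 2 - b ^ 2) ^ 2 =
      (algebraMap k F σ - C * b) ^ 2 + algebraMap k F c.a * algebraMap k F σ - E * b := by
  rw [vec_shift c σ]
  have h := (c.shift σ).hh_sp hb
    (x2 * (-C ^ 2 - E) + algebraMap k F σ * (x2 * C) + algebraMap k F σ ^ 2 * x2)
    (x2 * C - algebraMap k F σ * x2) x2
  have hD := (c.shift σ).cj_DD hb
  have hD0 := (c.shift σ).DD_ne_zero hb
  rw [c.shift_a] at h
  generalize hh k F K ((c.shift σ).vec
    (x2 * (-C ^ 2 - E) + algebraMap k F σ * (x2 * C) + algebraMap k F σ ^ 2 * x2)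
    (x2 * C - algebraMap k F σ * x2) x2) ((c.shift σ).sp b) = H at *
  generalize (c.shift σ).DD b = D at *
  have hc := congrArg (cj k F) h
  simp only [map_add, map_sub, map_mul, map_pow, map_one, map_neg, hx2, hC, hE, hb, hD,
      cj_algebraMap] at hc h
  have h3 := c.three_F
  have key : D * (H + cj k F H) = x2 * b * ((algebraMap k F σ ^ 2 - b ^ 2) ^ 2 -
      (algebraMap k F σ - C * b) ^ 2 - algebraMap k F c.a * algebraMap k F σ + E * b) := by
    generalize cj k F H = H' at *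
    generalize algebraMap k F σ = s at *
    generalize algebraMap k F c.a = a at *
    linear_combination h + hc + (C ^ 2 * b ^ 3 * x2 + -(E * b ^ 2 * x2) + a * b * s * x2 +
      b * s ^ 2 * x2 + -(b * s ^ 4 * x2) + -(b ^ 5 * x2)) * h3
  constructor
  · intro h0
    rw [h0, mul_zero] at key
    have h5 := (mul_eq_zero.1 key.symm).resolve_left (mul_ne_zero hx0 hb0)
    linear_combination h5
  · intro h0
    have h5 : D * (H + cj k F H) = 0 := by
      rw [key]
      linear_combination x2 * b * h0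
    exact (mul_eq_zero.1 h5).resolve_left hD0

theorem TT_normal (c : Ctx k F K) {d : k} (hd : algebraMap k F d = c.δ ^ 2) (c1 e1 x' : k)
    (hx' : x' ≠ 0) {x2 C E : F} (hx2 : x2 = algebraMap k F x' * c.δ)
    (hC : C = algebraMap k F c1 * c.δ) (hE : E = algebraMap k F e1 * c.δ) :
    TT k F (c.vec (x2 * (-C ^ 2 - E)) (x2 * C) x2) =
    (Finset.univ.filter (fun p : k × k => (p.1 ^ 2 - d * p.2 ^ 2) ^ 2 =
      (p.1 - d * c1 * p.2) ^ 2 + c.a * p.1 - d * e1 * p.2)).card := by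
  have gx2 : cj k F x2 = - x2 := by rw [hx2, c.cj_yδ]
  have gC : cj k F C = - C := by rw [hC, c.cj_yδ]
  have gE : cj k F E = - E := by rw [hE, c.cj_yδ]
  have hx0 : x2 ≠ 0 := by rw [hx2]; exact c.yδ_ne hx'
  rw [TT, Finset.card_filter, Finset.card_filter, c.sum_CC, Fintype.sum_prod_type]
  have h1 : ∀ σ y : k, y ≠ 0 →
      (if hh k F K (c.vec (x2 * (-C ^ 2 - E)) (x2 * C) x2)
          ((c.shift σ).sp (algebraMap k F y * c.δ)) +
        cj k F (hh k F K (c.vec (x2 * (-C ^ 2 - E)) (x2 * C) x2)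
          ((c.shift σ).sp (algebraMap k F y * c.δ))) = 0 then (1 : ℕ) else 0) =
      if ((σ ^ 2 - d * y ^ 2) ^ 2 = (σ - d * c1 * y) ^ 2 + c.a * σ - d * e1 * y)
        then 1 else 0 := by
    intro σ y hy
    have h2 := point_iff c gx2 hx0 gC gE (c.cj_yδ y) (c.yδ_ne hy) σ
    have h3 : ((algebraMap k F σ ^ 2 - (algebraMap k F y * c.δ) ^ 2) ^ 2 =
        (algebraMap k F σ - C * (algebraMap k F y * c.δ)) ^ 2 +
          algebraMap k F c.a * algebraMap k F σ - E * (algebraMap k F y * c.δ)) ↔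
        ((σ ^ 2 - d * y ^ 2) ^ 2 = (σ - d * c1 * y) ^ 2 + c.a * σ - d * e1 * y) := by
      rw [← (algebraMap k F).injective.eq_iff]
      simp only [map_add, map_sub, map_mul, map_pow, hd, hC, hE]
      constructor
      · intro h
        linear_combination h
      · intro h
        linear_combination h
    simp only [h2.trans h3]
  have h4 : ∀ σ : k, ∑ y ∈ Finset.univ.erase (0 : k),
      (if hh k F K (c.vec (x2 * (-C ^ 2 - E)) (x2 * C) x2)
          ((c.shift σ).sp (algebraMap k F y * c.δ)) +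
        cj k F (hh k F K (c.vec (x2 * (-C ^ 2 - E)) (x2 * C) x2)
          ((c.shift σ).sp (algebraMap k F y * c.δ))) = 0 then (1 : ℕ) else 0) =
      ∑ y ∈ Finset.univ.erase (0 : k),
      if ((σ ^ 2 - d * y ^ 2) ^ 2 = (σ - d * c1 * y) ^ 2 + c.a * σ - d * e1 * y)
        then 1 else 0 := by
    intro σ
    apply Finset.sum_congr rfl
    intro y hy
    exact h1 σ y (Finset.ne_of_mem_erase hy)
  have h5 : (if hh k F K (c.vec (x2 * (-C ^ 2 - E)) (x2 * C) x2) 1 +
        cj k F (hh k F K (c.vec (x2 * (-C ^ 2 - E)) (x2 * C) x2) 1) = 0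
        then (1 : ℕ) else 0) = 1 := by
    rw [c.hh_vec_one, map_neg, gx2, if_pos (by ring)]
  have h6 : ∀ σ : k, (if ((σ ^ 2 - d * 0 ^ 2) ^ 2 =
      (σ - d * c1 * 0) ^ 2 + c.a * σ - d * e1 * 0) then (1 : ℕ) else 0) =
      if σ = 0 then 1 else 0 := by
    intro σ
    have : ((σ ^ 2 - d * 0 ^ 2) ^ 2 = (σ - d * c1 * 0) ^ 2 + c.a * σ - d * e1 * 0) ↔
        σ = 0 := by
      constructor
      · intro h
        have h7 : σ * (σ ^ 3 - σ - c.a) = 0 := by linear_combination h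
        rcases mul_eq_zero.1 h7 with h8 | h8
        · exact h8
        · exact absurd (sub_eq_zero.1 h8) (c.a_ne σ)
      · rintro rfl
        ring
    simp only [this]
  rw [h5, Finset.sum_congr rfl (fun σ _ => h4 σ)]
  have h9 : ∀ σ : k, ∑ y : k,
      (if ((σ ^ 2 - d * y ^ 2) ^ 2 = (σ - d * c1 * y) ^ 2 + c.a * σ - d * e1 * y)
        then (1 : ℕ) else 0) = (if σ = 0 then 1 else 0) +
      ∑ y ∈ Finset.univ.erase (0 : k),
      if ((σ ^ 2 - d * y ^ 2) ^ 2 = (σ - d * c1 * y) ^ 2 + c.a * σ - d * e1 * y)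
        then 1 else 0 := by
    intro σ
    rw [← h6 σ, ← Finset.add_sum_erase Finset.univ _ (Finset.mem_univ (0 : k))]
  rw [Finset.sum_congr rfl (fun σ _ => h9 σ), Finset.sum_add_distrib]
  congr 1
  simp

theorem norm_δ (c : Ctx k F K) {d : k} (hd : algebraMap k F d = c.δ ^ 2) :
    Algebra.norm k c.δ = - d := by
  apply (algebraMap k F).injective
  rw [c.normF_formula, c.cj_δ, map_neg, hd]
  ring

theorem trace_normal (c : Ctx k F K) {d : k} (hd : algebraMap k F d = c.δ ^ 2)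
    (c1 e1 x' : k) {x2 C E : F} (hx2 : x2 = algebraMap k F x' * c.δ)
    (hC : C = algebraMap k F c1 * c.δ) (hE : E = algebraMap k F e1 * c.δ) :
    Algebra.trace k F ((1 : F) ^ 3 *
      Algebra.norm F (c.vec (x2 * (-C ^ 2 - E)) (x2 * C) x2) / c.δ ^ 3) =
    - (x' ^ 3 * ((1 - d * c1 ^ 2) ^ 3 + (c.a ^ 2 - d * e1 ^ 2))) := by
  have gC : cj k F C = - C := by rw [hC, c.cj_yδ]
  have gE : cj k F E = - E := by rw [hE, c.cj_yδ]
  have h0 : Algebra.norm F (c.vec (x2 * (-C ^ 2 - E)) (x2 * C) x2) =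
      x2 ^ 3 * Algebra.norm F (c.vec (-C ^ 2 - E) C 1) := by
    rw [vec_smul, map_mul, Algebra.norm_algebraMap, c.finK]
  have h1 : (1 : F) ^ 3 * Algebra.norm F (c.vec (x2 * (-C ^ 2 - E)) (x2 * C) x2) / c.δ ^ 3 =
      algebraMap k F x' ^ 3 * Algebra.norm F (c.vec (-C ^ 2 - E) C 1) := by
    rw [div_eq_iff (pow_ne_zero 3 c.hδ0), h0, hx2]
    ring
  apply (algebraMap k F).injective
  rw [h1, c.trF_formula, norm_vec]
  simp only [map_add, map_sub, map_mul, map_pow, map_one, map_neg, gC, gE, cj_algebraMap]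
  have hC2 : algebraMap k F d * algebraMap k F c1 ^ 2 = C ^ 2 := by rw [hd, hC]; ring
  have hE2 : algebraMap k F d * algebraMap k F e1 ^ 2 = E ^ 2 := by rw [hd, hE]; ring
  rw [hC2, hE2]
  have h3 := c.three_F
  clear hC2 hE2 gC gE h0 h1 hx2 hC hE
  generalize algebraMap k F x' = x
  generalize algebraMap k F c.a = a at *
  linear_combination x ^ 3 * (1 + (-3) * C ^ 2 + (-2) * C ^ 2 * E ^ 2 + 3 * C ^ 4 + -(C ^ 6) +
    E ^ 2 + a ^ 2) * h3

theorem normal_case (c : Ctx k F K) (c1 e1 x' : k)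
    (hx' : x' ≠ 0) {x2 C E : F} (hx2 : x2 = algebraMap k F x' * c.δ)
    (hC : C = algebraMap k F c1 * c.δ) (hE : E = algebraMap k F e1 * c.δ)
    (β : k) (hβ : β ≠ 0)
    (h : fr k K (c.vec (x2 * (-C ^ 2 - E)) (x2 * C) x2 *
      tau k K (c.vec (x2 * (-C ^ 2 - E)) (x2 * C) x2)) =
      c.vec (x2 * (-C ^ 2 - E)) (x2 * C) x2 *
      tau k K (c.vec (x2 * (-C ^ 2 - E)) (x2 * C) x2) + algebraMap k K β) :
    (TT k F (c.vec (x2 * (-C ^ 2 - E)) (x2 * C) x2) : ℤ) = Fintype.card k + 1 -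
      WW k F c.δ β (Algebra.norm F (c.vec (x2 * (-C ^ 2 - E)) (x2 * C) x2)) 1 := by
  obtain ⟨d, hd, hns⟩ := exists_d c
  have gx2 : cj k F x2 = - x2 := by rw [hx2, c.cj_yδ]
  have gC : cj k F C = - C := by rw [hC, c.cj_yδ]
  have gE : cj k F E = - E := by rw [hE, c.cj_yδ]
  have hb := beta_eq c gx2 gC gE β h
  have hb' : β = - (x' ^ 2 * d * (c.a - d * c1 * e1)) := by
    apply (algebraMap k F).injective
    rw [hb]
    simp only [map_sub, map_mul, map_pow, map_neg, hd, hx2, hC, hE]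
    ring
  have ht : c.a - d * c1 * e1 ≠ 0 := by
    intro h0
    rw [h0] at hb'
    exact hβ (by rw [hb']; ring)
  have hd0 : d ≠ 0 := by
    rintro rfl
    exact hns ⟨0, by ring⟩
  rw [TT_normal c hd c1 e1 x' hx' hx2 hC hE,
    Pool.Agent.Helper80.Hemi.goalCount k c.char3 d c.a c1 e1 hns c.a_ne ht]
  congr 1
  rw [WW, trace_normal c hd c1 e1 x' hx2 hC hE, norm_δ c hd]
  have hx2' : x' ^ 2 ≠ 0 := pow_ne_zero 2 hx'
  symm
  rw [← Function.Bijective.sum_comp (mulLeft_bijective₀ (x' ^ 2) hx2')]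
  apply Finset.sum_congr rfl
  intro v _
  have h1 : Algebra.norm k (1 : F) * β / -d = x' ^ 2 * (c.a - d * c1 * e1) := by
    rw [map_one, div_eq_iff (neg_ne_zero.2 hd0), hb']
    ring
  rw [h1]
  have h2 : (x' ^ 2 * v) ^ 3 - (x' ^ 2 * (c.a - d * c1 * e1)) ^ 2 * (x' ^ 2 * v) +
      (-(x' ^ 3 * ((1 - d * c1 ^ 2) ^ 3 + (c.a ^ 2 - d * e1 ^ 2)))) ^ 2 =
      (x' ^ 3) ^ 2 * (v ^ 3 - (c.a - d * c1 * e1) ^ 2 * v +
        ((1 - d * c1 ^ 2) ^ 3 + (c.a ^ 2 - d * e1 ^ 2)) ^ 2) := by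
    ring
  rw [h2, map_mul, quadraticChar_sq_one' (pow_ne_zero 3 hx'), one_mul]

theorem key_case (c : Ctx k F K) (X : K) (β : k) (hX : hh k F K X X = 0) (hβ : β ≠ 0)
    (h : fr k K (X * tau k K X) = X * tau k K X + algebraMap k K β)
    (h1 : hh k F K X 1 + cj k F (hh k F K X 1) = 0) :
    (TT k F X : ℤ) = Fintype.card k + 1 - WW k F c.δ β (Algebra.norm F X) 1 := by
  obtain ⟨X0, x1, x2, rfl⟩ := c.vec_surjective X
  rw [c.hh_vec_one, map_neg] at h1
  have gx2 : cj k F x2 = - x2 := by linear_combination -h1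
  have hx0 : x2 ≠ 0 := by
    rintro rfl
    obtain ⟨l, hl⟩ := c.witt hX c.one_mem_CC (by rw [c.hh_vec_one, neg_zero])
    rw [hl, mul_one, c.tau_F, ← map_mul, fr_F] at h
    have h2 : cj k F (l * cj k F l) = l * cj k F l := by
      rw [map_mul, c.cj_cj, mul_comm]
    rw [h2] at h
    have h3 : algebraMap k K β = 0 := by linear_combination -h
    exact hβ ((map_eq_zero _).1 h3)
  obtain ⟨u, v, huv⟩ := c.decomp (x1 / x2)
  rw [div_eq_iff hx0] at huv
  set C : F := algebraMap k F v * c.δ with hC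
  have gC : cj k F C = - C := by rw [hC, c.cj_yδ]
  have hsh := vec_shift c u X0 x1 x2
  set X0' : F := X0 + algebraMap k F u * x1 + algebraMap k F u ^ 2 * x2 with hX0'
  have e1 : x1 - algebraMap k F u * x2 = x2 * C := by
    rw [huv]
    ring
  have e0 : X0' = x2 * (X0' / x2) := by
    rw [mul_div_cancel₀ _ hx0]
  rw [e1, e0] at hsh
  set w : F := X0' / x2 with hw
  rw [hsh, (c.shift u).hh_vec] at hX
  simp only [map_mul, gx2, gC] at hX
  have hw2 : w + cj k F w = C ^ 2 := by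
    have h5 : x2 ^ 2 * (w + cj k F w - C ^ 2) = 0 := by linear_combination hX
    have h6 := (mul_eq_zero.1 h5).resolve_left (pow_ne_zero 2 hx0)
    linear_combination h6
  obtain ⟨e, he⟩ := c.exists_δ (x := - w - C ^ 2) (by
    simp only [map_sub, map_neg, map_pow, gC]
    linear_combination -hw2 - C ^ 2 * c.three_F)
  set E : F := - w - C ^ 2 with hE
  have ew : w = - C ^ 2 - E := by rw [hE]; ring
  obtain ⟨x', hx'⟩ := c.exists_δ gx2
  have hx'0 : x' ≠ 0 := by
    rintro rfl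
    exact hx0 (by rw [hx', map_zero, zero_mul])
  rw [ew] at hsh
  rw [hsh] at h ⊢
  exact normal_case (c.shift u) v e x' hx'0 hx' hC he β hβ h

theorem goalT : GoalT := by
  intro k F K _ _ _ _ _ _ _ _ _ _ c X β hX hβ h hT
  rw [TT, Finset.card_pos] at hT
  obtain ⟨s, hs⟩ := hT
  rw [Finset.mem_filter] at hs
  obtain ⟨hsC, hs0⟩ := hs
  have hs' := c.CC_inv hsC
  have e1 : TT k F (s⁻¹ * X) = TT k F X := c.TT_CC hs' X
  have e2 : Algebra.norm F (s⁻¹ * X) = Algebra.norm F X := by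
    rw [map_mul, c.CC_norm hs', one_mul]
  have e3 : s⁻¹ * X * tau k K (s⁻¹ * X) = X * tau k K X := by
    rw [map_mul (tau k K)]
    linear_combination (X * tau k K X) * (c.CC_tau hs')
  have e4 : hh k F K (s⁻¹ * X) 1 = hh k F K X s := by
    rw [← c.hh_CC hs' X s, inv_mul_cancel₀ (c.CC_ne_zero hsC)]
  rw [← e1, ← e2]
  apply key_case c (s⁻¹ * X) β _ hβ
  · rw [e3, h]
  · rw [e4, hs0]
  · rw [c.hh_CC hs', hX]

end Pool.Agent.Helper88.Hemi
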